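import Mathlib

set_option autoImplicit false

namespace Pool.Agent.H130R7

section General

variable {E : Type*} [NormedAddCommGroup E] [NormedSpace ℝ E]

lemma lemmaA (T : E →L[ℝ] E) (v : ℝ)
    (hv : ∀ (x : E) (f : E →L[ℝ] ℝ), ‖x‖ = 1 → ‖f‖ = 1 → f x = 1 → f (T x) ≤ v)
    (α : ℝ) (hα : 0 ≤ α) (x : E) :
    (1 - α * v) * ‖x + α • T x‖ ≤ (1 + α ^ 2 * ‖T‖ ^ 2) * ‖x‖ := by
  set y : E := x + α • T x with hy
  by_cases h0 : ‖y‖ = 0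
  · rw [h0, mul_zero]; positivity
  obtain ⟨f, hf1, hf2⟩ := exists_dual_vector ℝ y h0
  have hfy : f y = ‖y‖ := by rw [hf2]; simp
  have hypos : 0 < ‖y‖ := lt_of_le_of_ne (norm_nonneg _) (Ne.symm h0)
  have h1 : f (T ((‖y‖)⁻¹ • y)) ≤ v := by
    apply hv _ f _ hf1
    · rw [map_smul, hfy, smul_eq_mul, inv_mul_cancel₀ h0]
    · rw [norm_smul, norm_inv, norm_norm, inv_mul_cancel₀ h0]
  have h2 : f (T y) ≤ v * ‖y‖ := by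
    rw [map_smul, map_smul, smul_eq_mul, inv_mul_le_iff₀ hypos] at h1
    linarith
  have h3 : y - α • T y = x - α ^ 2 • T (T x) := by
    rw [hy, map_add, map_smul]
    module
  have h4 : f (y - α • T y) = ‖y‖ - α * f (T y) := by
    rw [map_sub, map_smul, hfy, smul_eq_mul]
  have h5 : f (y - α • T y) ≤ ‖y - α • T y‖ := by
    have h6 := f.le_opNorm (y - α • T y)
    rw [hf1, one_mul, Real.norm_eq_abs] at h6
    exact (le_abs_self _).trans h6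
  have h7 : ‖y - α • T y‖ ≤ (1 + α ^ 2 * ‖T‖ ^ 2) * ‖x‖ := by
    rw [h3]
    calc ‖x - α ^ 2 • T (T x)‖ ≤ ‖x‖ + ‖α ^ 2 • T (T x)‖ := norm_sub_le _ _
      _ = ‖x‖ + α ^ 2 * ‖T (T x)‖ := by
          rw [norm_smul, Real.norm_of_nonneg (by positivity)]
      _ ≤ ‖x‖ + α ^ 2 * (‖T‖ * (‖T‖ * ‖x‖)) := by
          have h8 : ‖T (T x)‖ ≤ ‖T‖ * (‖T‖ * ‖x‖) :=
            (T.le_opNorm _).trans (mul_le_mul_of_nonneg_left (T.le_opNorm _) (norm_nonneg _))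
          have := mul_le_mul_of_nonneg_left h8 (by positivity : (0 : ℝ) ≤ α ^ 2)
          linarith
      _ = _ := by ring
  have h9 : α * f (T y) ≤ α * (v * ‖y‖) := mul_le_mul_of_nonneg_left h2 hα
  calc (1 - α * v) * ‖y‖ = ‖y‖ - α * (v * ‖y‖) := by ring
    _ ≤ ‖y‖ - α * f (T y) := by linarith
    _ = f (y - α • T y) := h4.symm
    _ ≤ _ := h5.trans h7

end General

section Lower

variable {E : Type*} [NormedAddCommGroup E] [NormedSpace ℝ E]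
variable {X : Type*} [NormedAddCommGroup X] [NormedSpace ℝ X]

/-- Lower bound for the numerical radius in a space close to a space of numerical index one. -/
theorem lower_bound
    (P : ∀ (S : E →L[ℝ] E) (ε : ℝ), 0 < ε → ∃ (x : E) (f : E →L[ℝ] ℝ), ‖x‖ ≤ 1 ∧ ‖f‖ ≤ 1 ∧
      f x = 1 ∧ ‖S‖ - ε ≤ |f (S x)|)
    (ι : X ≃L[ℝ] E) (h1 : ∀ x, ‖x‖ ≤ ‖ι x‖) (h2 : ∀ x, ‖ι x‖ ≤ (1001 / 1000) * ‖x‖)
    (T : X →L[ℝ] X) (hT : ‖T‖ = 1) (v : ℝ)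
    (hv : ∀ (x : X) (f : X →L[ℝ] ℝ), ‖x‖ = 1 → ‖f‖ = 1 → f x = 1 → |f (T x)| ≤ v)
    (hv1 : v ≤ 1) :
    3 / 5 ≤ v := by
  by_contra hcon
  push Not at hcon
  set S : E →L[ℝ] E := (ι : X →L[ℝ] E).comp (T.comp (ι.symm : E →L[ℝ] X)) with hS
  have hSι : ∀ x : X, S (ι x) = ι (T x) := by
    intro x; simp [hS]
  have hSn : 1 ≤ (1001 / 1000) * ‖S‖ := by
    rw [← hT]
    apply T.opNorm_le_bound (by positivity)
    intro x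
    calc ‖T x‖ ≤ ‖ι (T x)‖ := h1 _
      _ = ‖S (ι x)‖ := by rw [hSι]
      _ ≤ ‖S‖ * ‖ι x‖ := S.le_opNorm _
      _ ≤ ‖S‖ * ((1001 / 1000) * ‖x‖) := mul_le_mul_of_nonneg_left (h2 x) (norm_nonneg _)
      _ = _ := by ring
  obtain ⟨x₀, f₀, hx₀, hf₀, hfx, hfS⟩ := P S (1 / 1000) (by norm_num)
  set x : X := ι.symm x₀ with hx
  have hιx : ι x = x₀ := by simp [hx]
  have hxn : ‖x‖ ≤ 1 := (h1 x).trans (by rw [hιx]; exact hx₀)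
  -- sign
  obtain ⟨σ, hσ, hσS⟩ : ∃ σ : ℝ, |σ| = 1 ∧ σ * f₀ (S x₀) = |f₀ (S x₀)| := by
    rcases le_total 0 (f₀ (S x₀)) with h | h
    · exact ⟨1, by simp, by rw [abs_of_nonneg h, one_mul]⟩
    · exact ⟨-1, by simp, by rw [abs_of_nonpos h]; ring⟩
  have hA := lemmaA (σ • T) v (by
    intro x f hx hf hfx
    have h3 := hv x f hx hf hfx
    have h4 : f ((σ • T) x) = σ * f (T x) := by simp
    rw [h4]
    calc σ * f (T x) ≤ |σ * f (T x)| := le_abs_self _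
      _ = |f (T x)| := by rw [abs_mul, hσ, one_mul]
      _ ≤ v := h3) (1 / 5) (by norm_num) x
  have hσT : ‖σ • T‖ = 1 := by rw [norm_smul, Real.norm_eq_abs, hσ, one_mul, hT]
  rw [hσT] at hA
  have h5 : 1 + 1 / 5 * |f₀ (S x₀)| ≤ ‖x₀ + (1 / 5 : ℝ) • (σ • S x₀)‖ := by
    have h6 : f₀ (x₀ + (1 / 5 : ℝ) • (σ • S x₀)) = 1 + 1 / 5 * |f₀ (S x₀)| := by
      rw [map_add, map_smul, map_smul, hfx, smul_eq_mul, smul_eq_mul, hσS]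
    rw [← h6]
    have h7 := f₀.le_opNorm (x₀ + (1 / 5 : ℝ) • (σ • S x₀))
    rw [Real.norm_eq_abs] at h7
    calc f₀ (x₀ + (1 / 5 : ℝ) • (σ • S x₀)) ≤ |f₀ (x₀ + (1 / 5 : ℝ) • (σ • S x₀))| := le_abs_self _
      _ ≤ ‖f₀‖ * ‖x₀ + (1 / 5 : ℝ) • (σ • S x₀)‖ := h7
      _ ≤ 1 * ‖x₀ + (1 / 5 : ℝ) • (σ • S x₀)‖ := mul_le_mul_of_nonneg_right hf₀ (norm_nonneg _)
      _ = _ := one_mul _
  have h8 : x₀ + (1 / 5 : ℝ) • (σ • S x₀) = ι (x + (1 / 5 : ℝ) • ((σ • T) x)) := by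
    rw [map_add, map_smul, hιx]
    have : ι ((σ • T) x) = σ • S x₀ := by
      rw [ContinuousLinearMap.smul_apply, map_smul, ← hSι, hιx]
    rw [this]
  have h9 := h2 (x + (1 / 5 : ℝ) • ((σ • T) x))
  rw [← h8] at h9
  have h10 : 1 / 1.001 - 1 / 1000 ≤ |f₀ (S x₀)| := by
    have : (1 : ℝ) / 1.001 ≤ ‖S‖ := by
      rw [div_le_iff₀ (by norm_num)]
      norm_num at hSn ⊢
      linarith
    linarith
  have h11 : (1 : ℝ) + 1 / 5 * (1 / 1.001 - 1 / 1000) ≤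
      (1001 / 1000) * ‖x + (1 / 5 : ℝ) • ((σ • T) x)‖ := by linarith
  set z : ℝ := ‖x + (1 / 5 : ℝ) • ((σ • T) x)‖ with hz
  have hz0 : 0 ≤ z := norm_nonneg _
  have h12 : (1 - 1 / 5 * v) * z ≤ 26 / 25 := by
    have : (1 + (1 / 5 : ℝ) ^ 2 * 1 ^ 2) * ‖x‖ ≤ 26 / 25 := by
      norm_num
      linarith
    linarith
  have h13 : (1 - 1 / 5 * (3 / 5)) * z ≤ (1 - 1 / 5 * v) * z := by
    apply mul_le_mul_of_nonneg_right _ hz0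
    linarith
  norm_num at h11 h12 h13
  linarith

/-- The numerical index as in the frozen statement is at least `3/5`. -/
theorem lower_index [Nontrivial X]
    (P : ∀ (S : E →L[ℝ] E) (ε : ℝ), 0 < ε → ∃ (x : E) (f : E →L[ℝ] ℝ), ‖x‖ ≤ 1 ∧ ‖f‖ ≤ 1 ∧
      f x = 1 ∧ ‖S‖ - ε ≤ |f (S x)|)
    (ι : X ≃L[ℝ] E) (h1 : ∀ x, ‖x‖ ≤ ‖ι x‖) (h2 : ∀ x, ‖ι x‖ ≤ (1001 / 1000) * ‖x‖) :
    3 / 5 ≤ sInf {s : ℝ | ∃ T : X →L[ℝ] X, ‖T‖ = 1 ∧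
          s = sSup {r : ℝ | ∃ (x : X) (f : X →L[ℝ] ℝ),
            ‖x‖ = 1 ∧ ‖f‖ = 1 ∧ f x = 1 ∧ r = ‖f (T x)‖}} := by
  apply le_csInf
  · exact ⟨_, ContinuousLinearMap.id ℝ X, by simp, rfl⟩
  · rintro s ⟨T, hT, rfl⟩
    have hb : ∀ (x : X) (f : X →L[ℝ] ℝ), ‖x‖ = 1 → ‖f‖ = 1 → f x = 1 → ‖f (T x)‖ ≤ 1 := by
      intro x f hx hf _
      calc ‖f (T x)‖ ≤ ‖f‖ * ‖T x‖ := f.le_opNorm _
        _ ≤ ‖f‖ * (‖T‖ * ‖x‖) := mul_le_mul_of_nonneg_left (T.le_opNorm _) (norm_nonneg _)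
        _ = 1 := by rw [hf, hT, hx]; norm_num
    have hbdd : BddAbove {r : ℝ | ∃ (x : X) (f : X →L[ℝ] ℝ),
            ‖x‖ = 1 ∧ ‖f‖ = 1 ∧ f x = 1 ∧ r = ‖f (T x)‖} := by
      refine ⟨1, ?_⟩
      rintro r ⟨x, f, hx, hf, hfx, rfl⟩
      exact hb x f hx hf hfx
    apply lower_bound P ι h1 h2 T hT
    · intro x f hx hf hfx
      exact le_csSup hbdd ⟨x, f, hx, hf, hfx, rfl⟩
    · apply Real.sSup_le _ zero_le_one
      rintro r ⟨x, f, hx, hf, hfx, rfl⟩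
      exact hb x f hx hf hfx

end Lower

section Upper

/-- Upper bound of the index of a space through one operator. -/
theorem upper_index {Y : Type*} [NormedAddCommGroup Y] [NormedSpace ℝ Y]
    (T : Y →L[ℝ] Y) (hT : 1 ≤ (1001 / 1000) * ‖T‖)
    (h : ∀ σ : ℝ, |σ| = 1 → ∀ y : Y, ‖y + σ • T y‖ ≤ (1001 / 1000) * (3 / 2) * ‖y‖) :
    sInf {s : ℝ | ∃ T : Y →L[ℝ] Y, ‖T‖ = 1 ∧
          s = sSup {r : ℝ | ∃ (x : Y) (f : Y →L[ℝ] ℝ),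
            ‖x‖ = 1 ∧ ‖f‖ = 1 ∧ f x = 1 ∧ r = ‖f (T x)‖}} ≤ 11 / 20 := by
  have hTpos : 0 < ‖T‖ := by linarith
  have hbelow : BddBelow {s : ℝ | ∃ T : Y →L[ℝ] Y, ‖T‖ = 1 ∧
          s = sSup {r : ℝ | ∃ (x : Y) (f : Y →L[ℝ] ℝ),
            ‖x‖ = 1 ∧ ‖f‖ = 1 ∧ f x = 1 ∧ r = ‖f (T x)‖}} := by
    refine ⟨0, ?_⟩
    rintro s ⟨T, _, rfl⟩
    apply Real.sSup_nonneg
    rintro r ⟨x, f, _, _, _, rfl⟩
    exact norm_nonneg _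
  refine (csInf_le hbelow ⟨(‖T‖)⁻¹ • T, ?_, rfl⟩).trans ?_
  · rw [norm_smul, norm_inv, norm_norm, inv_mul_cancel₀ hTpos.ne']
  · apply Real.sSup_le _ (by norm_num)
    rintro r ⟨x, f, hx, hf, hfx, rfl⟩
    obtain ⟨σ, hσ, hσS⟩ : ∃ σ : ℝ, |σ| = 1 ∧ σ * f (T x) = |f (T x)| := by
      rcases le_total 0 (f (T x)) with h | h
      · exact ⟨1, by simp, by rw [abs_of_nonneg h, one_mul]⟩
      · exact ⟨-1, by simp, by rw [abs_of_nonpos h]; ring⟩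
    have h1 : 1 + |f (T x)| ≤ (1001 / 1000) * (3 / 2) := by
      have h2 : f (x + σ • T x) = 1 + |f (T x)| := by
        rw [map_add, map_smul, hfx, smul_eq_mul, hσS]
      rw [← h2]
      calc f (x + σ • T x) ≤ ‖f (x + σ • T x)‖ := by
            rw [Real.norm_eq_abs]; exact le_abs_self _
        _ ≤ ‖f‖ * ‖x + σ • T x‖ := f.le_opNorm _
        _ = ‖x + σ • T x‖ := by rw [hf, one_mul]
        _ ≤ (1001 / 1000) * (3 / 2) * ‖x‖ := h σ hσ x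
        _ = _ := by rw [hx, mul_one]
    have h3 : f (((‖T‖)⁻¹ • T) x) = (‖T‖)⁻¹ * f (T x) := by simp
    rw [h3, Real.norm_eq_abs, abs_mul, abs_of_pos (by positivity : 0 < (‖T‖)⁻¹),
      inv_mul_le_iff₀ hTpos]
    norm_num at h1 hT
    linarith

end Upper

end Pool.Agent.H130R7
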