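import Mathlib

set_option autoImplicit false

namespace Pool.Agent.H130R7

open Set Filter Topology

/-- A type synonym used for a renormed space. -/
def Ren (E : Type) : Type := E

instance (E : Type) [h : AddCommGroup E] : AddCommGroup (Ren E) := h

instance (E : Type) [AddCommGroup E] [h : Module ℝ E] : Module ℝ (Ren E) := h

/-- The identity as a linear equivalence. -/
def renEquiv (E : Type) [AddCommGroup E] [Module ℝ E] : Ren E ≃ₗ[ℝ] E := LinearEquiv.refl ℝ E

theorem exists_renorm {E : Type} [NormedAddCommGroup E] [NormedSpace ℝ E] [CompleteSpace E]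
    (N : Seminorm ℝ E) (c : ℝ) (h1 : ∀ x, N x ≤ ‖x‖) (h2 : ∀ x, ‖x‖ ≤ c * N x) :
    ∃ (X : Type) (_ : NormedAddCommGroup X) (_ : NormedSpace ℝ X) (_ : CompleteSpace X)
      (ι : X ≃L[ℝ] E), ∀ x, ‖x‖ = N (ι x) := by
  let nrm : Norm (Ren E) := ⟨fun x => N (renEquiv E x)⟩
  have core : NormedSpace.Core ℝ (Ren E) :=
    { norm_nonneg := fun x => apply_nonneg N _
      norm_smul := fun r x => by
        change N (renEquiv E (r • x)) = ‖r‖ * N (renEquiv E x)
        rw [map_smul, map_smul_eq_mul]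
      norm_triangle := fun x y => by
        change N (renEquiv E (x + y)) ≤ N (renEquiv E x) + N (renEquiv E y)
        rw [map_add]
        exact map_add_le_add N _ _
      norm_eq_zero_iff := fun x => by
        change N (renEquiv E x) = 0 ↔ x = 0
        constructor
        · intro h
          have h3 := h2 (renEquiv E x)
          rw [h, mul_zero] at h3
          have h4 : renEquiv E x = 0 := norm_le_zero_iff.1 h3
          exact (renEquiv E).map_eq_zero_iff.1 h4
        · rintro rfl
          rw [map_zero, map_zero] }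
  let ng : NormedAddCommGroup (Ren E) := NormedAddCommGroup.ofCore core
  let ns : NormedSpace ℝ (Ren E) := NormedSpace.ofCore core
  have hn : ∀ x : Ren E, ‖x‖ = N (renEquiv E x) := fun x => rfl
  let ι : Ren E ≃L[ℝ] E := (renEquiv E).toContinuousLinearEquivOfBounds c 1
    (fun x => by rw [hn]; exact h2 _) (fun x => by
      rw [hn, LinearEquiv.apply_symm_apply, one_mul]; exact h1 _)
  have hcomp : CompleteSpace (Ren E) :=
    (completeSpace_congr (e := ι.toEquiv) ι.isUniformEmbedding).2 inferInstance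
  exact ⟨Ren E, ng, ns, hcomp, ι, fun x => rfl⟩

section GaugeNorm

variable {E : Type*} [NormedAddCommGroup E] [NormedSpace ℝ E]

/-- Generators of the new unit ball. -/
def gens {I : Type*} (p : I → E) : Set E :=
  Metric.closedBall 0 1 ∪ {y | ∃ (i : I) (t : ℝ), |t| ≤ 1 ∧ y = t • p i}

lemma gens_balanced {I : Type*} (p : I → E) : Balanced ℝ (gens p) := by
  rw [balanced_iff_smul_mem]
  intro a ha x hx
  rcases hx with hx | ⟨i, t, ht, rfl⟩
  · left
    rw [mem_closedBall_zero_iff] at hx ⊢
    rw [norm_smul]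
    exact mul_le_one₀ ha (norm_nonneg _) hx
  · right
    refine ⟨i, a * t, ?_, by rw [smul_smul]⟩
    rw [abs_mul]
    exact mul_le_one₀ ha (abs_nonneg _) ht

/-- The new norm as a seminorm on `E`. -/
theorem exists_gauge {I : Type*} (p : I → E) (c : ℝ) (hc : 1 ≤ c) (hp : ∀ i, ‖p i‖ ≤ c) :
    ∃ N : Seminorm ℝ E, (∀ x, N x ≤ ‖x‖) ∧ (∀ x, ‖x‖ ≤ c * N x) ∧ (∀ i, N (p i) ≤ 1) ∧
      ∀ (f : E →L[ℝ] ℝ) (M : ℝ), 0 ≤ M → (∀ y, ‖y‖ ≤ 1 → f y ≤ M) →
        (∀ i, |f (p i)| ≤ M) → ∀ x, f x ≤ M * N x := by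
  set B : Set E := convexHull ℝ (gens p) with hB
  have hbal : Balanced ℝ B := (gens_balanced p).convexHull
  have hconv : Convex ℝ B := convex_convexHull _ _
  have hsub : Metric.closedBall (0 : E) 1 ⊆ B :=
    (subset_union_left).trans (subset_convexHull _ _)
  have habs : Absorbent ℝ B :=
    absorbent_nhds_zero (Filter.mem_of_superset (Metric.closedBall_mem_nhds _ one_pos) hsub)
  have hsub2 : B ⊆ Metric.closedBall (0 : E) c := by
    apply convexHull_min _ (convex_closedBall _ _)
    rintro y (hy | ⟨i, t, ht, rfl⟩)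
    · exact Metric.closedBall_subset_closedBall hc hy
    · rw [mem_closedBall_zero_iff, norm_smul, Real.norm_eq_abs]
      calc |t| * ‖p i‖ ≤ 1 * c := mul_le_mul ht (hp i) (norm_nonneg _) zero_le_one
        _ = c := one_mul _
  have habs1 : Absorbent ℝ (Metric.closedBall (0 : E) 1) :=
    absorbent_nhds_zero (Metric.closedBall_mem_nhds _ one_pos)
  refine ⟨gaugeSeminorm hbal hconv habs, ?_, ?_, ?_, ?_⟩
  · intro x
    change gauge B x ≤ ‖x‖
    have h1 := gauge_mono habs1 hsub x
    rwa [gauge_closedBall zero_le_one, div_one] at h1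
  · intro x
    change ‖x‖ ≤ c * gauge B x
    have h1 := gauge_mono habs hsub2 x
    rwa [gauge_closedBall (by linarith), div_le_iff₀' (by linarith)] at h1
  · intro i
    change gauge B (p i) ≤ 1
    apply gauge_le_of_mem zero_le_one
    have h1 : p i ∈ B := subset_convexHull _ _ (Or.inr ⟨i, 1, by simp, by simp⟩)
    exact ⟨p i, h1, by simp⟩
  · intro f M hM hf1 hf2 x
    change f x ≤ M * gauge B x
    have hfB : ∀ y ∈ B, f y ≤ M := by
      have : B ⊆ {y | f y ≤ M} := by
        apply convexHull_min _ (convex_halfSpace_le f.toLinearMap.isLinear M)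
        rintro y (hy | ⟨i, t, ht, rfl⟩)
        · exact hf1 y (mem_closedBall_zero_iff.1 hy)
        · change f (t • p i) ≤ M
          rw [map_smul, smul_eq_mul]
          calc t * f (p i) ≤ |t * f (p i)| := le_abs_self _
            _ = |t| * |f (p i)| := abs_mul _ _
            _ ≤ 1 * M := mul_le_mul ht (hf2 i) (abs_nonneg _) zero_le_one
            _ = M := one_mul _
      exact this
    have key : ∀ a, gauge B x < a → f x ≤ M * a := by
      intro a ha
      obtain ⟨b, hb0, hba, y, hy, rfl⟩ := exists_lt_of_gauge_lt habs ha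
      have : f (b • y) = b * f y := by rw [map_smul, smul_eq_mul]
      simp only [this]
      calc b * f y ≤ b * M := mul_le_mul_of_nonneg_left (hfB y hy) hb0.le
        _ ≤ a * M := mul_le_mul_of_nonneg_right hba.le hM
        _ = M * a := mul_comm _ _
    have hlim : Tendsto (fun a => M * a) (𝓝[>] (gauge B x)) (𝓝 (M * gauge B x)) :=
      (tendsto_const_nhds.mul tendsto_id).mono_left nhdsWithin_le_nhds
    refine ge_of_tendsto hlim ?_
    filter_upwards [self_mem_nhdsWithin] with a ha
    exact key a ha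

end GaugeNorm

section Unique

/-- A space whose closed unit ball has enough strongly exposed points is the unique isometric
predual of its dual. -/
theorem unique_predual {X : Type*} [NormedAddCommGroup X] [NormedSpace ℝ X] [CompleteSpace X]
    {I : Type*} (p : I → X) (hdense : (Submodule.span ℝ (Set.range p)).topologicalClosure = ⊤)
    (F : I → (X →L[ℝ] ℝ)) (hp : ∀ i, ‖p i‖ ≤ 1) (hF : ∀ i, F i (p i) = 1)
    (r : ℝ) (hr : 0 < r)
    (hFr : ∀ i, ∀ h : X →L[ℝ] ℝ, ‖h‖ ≤ r → ‖F i + h‖ ≤ 1 + h (p i))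
    {Z : Type*} [NormedAddCommGroup Z] [NormedSpace ℝ Z] [CompleteSpace Z]
    (Φ : (Z →L[ℝ] ℝ) ≃ₗᵢ[ℝ] (X →L[ℝ] ℝ)) : Nonempty (Z ≃ₗᵢ[ℝ] X) := by
  -- norms of functionals
  have hnormZ : ∀ (g : Z →L[ℝ] ℝ) (z : Z), g z ≤ ‖g‖ * ‖z‖ := fun g z =>
    (le_abs_self _).trans (g.le_opNorm z)
  have hsep : ∀ z : Z, (∀ g : Z →L[ℝ] ℝ, g z = 0) → z = 0 := by
    intro z hz
    by_contra h
    obtain ⟨g, hg1, hg2⟩ := exists_dual_vector ℝ z (norm_ne_zero_iff.2 h)
    rw [hz g] at hg2
    exact norm_ne_zero_iff.2 h (by simpa using hg2.symm)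
  have hsepX : ∀ x : X, (∀ g : X →L[ℝ] ℝ, g x = 0) → x = 0 := by
    intro z hz
    by_contra h
    obtain ⟨g, hg1, hg2⟩ := exists_dual_vector ℝ z (norm_ne_zero_iff.2 h)
    rw [hz g] at hg2
    exact norm_ne_zero_iff.2 h (by simpa using hg2.symm)
  have hnX : ∀ (x : X) (C : ℝ), 0 ≤ C → (∀ g : X →L[ℝ] ℝ, |g x| ≤ C * ‖g‖) → ‖x‖ ≤ C := by
    intro x C hC h
    obtain ⟨g, hg1, hg2⟩ := exists_dual_vector'' ℝ x
    have h3 := h g
    rw [hg2] at h3
    simp only [RCLike.ofReal_real_eq_id, id_eq, abs_norm] at h3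
    calc ‖x‖ ≤ C * ‖g‖ := h3
      _ ≤ C * 1 := mul_le_mul_of_nonneg_left hg1 hC
      _ = C := mul_one _
  have hnZ : ∀ (z : Z) (C : ℝ), 0 ≤ C → (∀ g : Z →L[ℝ] ℝ, |g z| ≤ C * ‖g‖) → ‖z‖ ≤ C := by
    intro x C hC h
    obtain ⟨g, hg1, hg2⟩ := exists_dual_vector'' ℝ x
    have h3 := h g
    rw [hg2] at h3
    simp only [RCLike.ofReal_real_eq_id, id_eq, abs_norm] at h3
    calc ‖x‖ ≤ C * ‖g‖ := h3
      _ ≤ C * 1 := mul_le_mul_of_nonneg_left hg1 hC
      _ = C := mul_one _
  -- the set of good points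
  let D : Submodule ℝ X :=
    { carrier := {x | ∃ z : Z, ∀ g : Z →L[ℝ] ℝ, g z = Φ g x}
      add_mem' := by
        rintro a b ⟨z, hz⟩ ⟨w, hw⟩
        exact ⟨z + w, fun g => by rw [map_add, hz, hw, map_add]⟩
      zero_mem' := ⟨0, fun g => by rw [map_zero, map_zero]⟩
      smul_mem' := by
        rintro c a ⟨z, hz⟩
        exact ⟨c • z, fun g => by rw [map_smul, hz, map_smul]⟩ }
  have hnorm_eq : ∀ (x : X) (z : Z), (∀ g : Z →L[ℝ] ℝ, g z = Φ g x) → ‖z‖ = ‖x‖ := by
    intro x z hz
    apply le_antisymm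
    · apply hnZ _ _ (norm_nonneg _)
      intro g
      rw [hz g]
      have := (Φ g).le_opNorm x
      rw [Real.norm_eq_abs, Φ.norm_map] at this
      linarith
    · apply hnX _ _ (norm_nonneg _)
      intro g
      have h3 := hz (Φ.symm g)
      rw [Φ.apply_symm_apply] at h3
      rw [← h3]
      have := (Φ.symm g).le_opNorm z
      rw [Real.norm_eq_abs, Φ.symm.norm_map] at this
      linarith
  have hDclosed : IsClosed (D : Set X) := by
    rw [← isSeqClosed_iff_isClosed]
    intro u x hu hux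
    choose z hz using hu
    have hz' : ∀ n, ∀ g : Z →L[ℝ] ℝ, g (z n) = Φ g (u n) := hz
    have hcau : CauchySeq z := by
      rw [Metric.cauchySeq_iff]
      intro ε hε
      obtain ⟨n0, hn0⟩ := (Metric.cauchySeq_iff.1 hux.cauchySeq) ε hε
      refine ⟨n0, fun m hm n hn => ?_⟩
      rw [dist_eq_norm, hnorm_eq (u m - u n) (z m - z n)
        (fun g => by rw [map_sub, hz', hz', map_sub]), ← dist_eq_norm]
      exact hn0 m hm n hn
    obtain ⟨w, hw⟩ := cauchySeq_tendsto_of_complete hcau
    refine ⟨w, fun g => ?_⟩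
    have h1 : Tendsto (fun n => g (z n)) atTop (𝓝 (g w)) := (g.continuous.tendsto _).comp hw
    have h2 : Tendsto (fun n => Φ g (u n)) atTop (𝓝 (Φ g x)) :=
      ((Φ g).continuous.tendsto _).comp hux
    have h3 : (fun n => g (z n)) = fun n => Φ g (u n) := funext fun n => hz' n g
    rw [h3] at h1
    exact tendsto_nhds_unique h1 h2
  have hpD : ∀ i, p i ∈ D := by
    intro i
    -- norm one functional
    have hF1 : ‖F i‖ = 1 := by
      apply le_antisymm
      · have := hFr i 0 (by rw [norm_zero]; exact hr.le)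
        simpa using this
      · have h1 := (F i).le_opNorm (p i)
        rw [hF i, norm_one] at h1
        calc (1 : ℝ) ≤ ‖F i‖ * ‖p i‖ := h1
          _ ≤ ‖F i‖ * 1 := mul_le_mul_of_nonneg_left (hp i) (norm_nonneg _)
          _ = ‖F i‖ := mul_one _
    set G : Z →L[ℝ] ℝ := Φ.symm (F i) with hG
    have hG1 : ‖G‖ = 1 := by rw [hG, Φ.symm.norm_map, hF1]
    have hex : ∀ n : ℕ, ∃ z : Z, ‖z‖ ≤ 1 ∧ 1 - 1 / ((n : ℝ) + 1) < G z := by
      intro n
      have hpos : (0 : ℝ) < 1 / ((n : ℝ) + 1) := by positivity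
      obtain ⟨y, hy1, hy2⟩ := G.exists_lt_apply_of_lt_opNorm
        (r := 1 - 1 / ((n : ℝ) + 1)) (by rw [hG1]; linarith)
      rcases le_total 0 (G y) with h | h
      · refine ⟨y, hy1.le, ?_⟩
        rwa [Real.norm_of_nonneg h] at hy2
      · refine ⟨-y, by rw [norm_neg]; exact hy1.le, ?_⟩
        rw [Real.norm_of_nonpos h] at hy2
        rwa [map_neg]
    choose z hz1 hz2 using hex
    have key : ∀ n, ∀ g : Z →L[ℝ] ℝ, |g (z n) - Φ g (p i)| ≤ (1 / ((n : ℝ) + 1)) / r * ‖g‖ := by
      intro n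
      -- first for small functionals
      have hsmall : ∀ h : X →L[ℝ] ℝ, ‖h‖ ≤ r → (Φ.symm h) (z n) - h (p i) ≤ 1 / ((n : ℝ) + 1) := by
        intro h hh
        have h1 := hFr i h hh
        have h2 : (Φ.symm (F i + h)) (z n) ≤ ‖F i + h‖ := by
          calc (Φ.symm (F i + h)) (z n) ≤ ‖Φ.symm (F i + h)‖ * ‖z n‖ := hnormZ _ _
            _ ≤ ‖Φ.symm (F i + h)‖ * 1 := mul_le_mul_of_nonneg_left (hz1 n) (norm_nonneg _)
            _ = ‖F i + h‖ := by rw [mul_one, Φ.symm.norm_map]
        rw [map_add] at h2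
        have h3 : (Φ.symm (F i) + Φ.symm h) (z n) = G (z n) + (Φ.symm h) (z n) := rfl
        rw [h3] at h2
        have := hz2 n
        linarith
      have hsmall2 : ∀ h : X →L[ℝ] ℝ, ‖h‖ ≤ r → |(Φ.symm h) (z n) - h (p i)| ≤
          1 / ((n : ℝ) + 1) := by
        intro h hh
        rw [abs_le]
        constructor
        · have h1 := hsmall (-h) (by rwa [norm_neg])
          rw [map_neg] at h1
          have h3 : (-Φ.symm h) (z n) = - (Φ.symm h) (z n) := rfl
          have h4 : (-h) (p i) = - h (p i) := rfl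
          rw [h3, h4] at h1
          linarith
        · exact hsmall h hh
      intro g
      by_cases hg : ‖g‖ = 0
      · have hg0 : g = 0 := norm_eq_zero.1 hg
        rw [hg0]
        simp
      · have hgpos : 0 < ‖g‖ := lt_of_le_of_ne (norm_nonneg _) (Ne.symm hg)
        have h1 := hsmall2 ((r / ‖g‖) • Φ g) (by
          rw [norm_smul, Φ.norm_map, Real.norm_of_nonneg (by positivity), div_mul_cancel₀ _ hg])
        rw [map_smul, Φ.symm_apply_apply] at h1
        have h3 : ((r / ‖g‖) • g) (z n) = (r / ‖g‖) * g (z n) := rfl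
        have h4 : ((r / ‖g‖) • Φ g) (p i) = (r / ‖g‖) * Φ g (p i) := rfl
        rw [h3, h4, ← mul_sub, abs_mul, abs_of_pos (by positivity : 0 < r / ‖g‖)] at h1
        rw [div_mul_eq_mul_div, div_le_iff₀ hgpos] at h1
        rw [div_mul_eq_mul_div, le_div_iff₀ hr]
        linarith
    have hlim0 : Tendsto (fun n : ℕ => (1 / ((n : ℝ) + 1)) / r) atTop (𝓝 0) := by
      have := tendsto_one_div_add_atTop_nhds_zero_nat (𝕜 := ℝ)
      simpa using this.div_const r
    have hcau : CauchySeq z := by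
      rw [Metric.cauchySeq_iff]
      intro ε hε
      obtain ⟨n0, hn0⟩ := (Metric.tendsto_atTop.1 hlim0) (ε / 4) (by positivity)
      refine ⟨n0, fun m hm n hn => ?_⟩
      rw [dist_eq_norm]
      have hb : ∀ k, n0 ≤ k → (1 / ((k : ℝ) + 1)) / r ≤ ε / 4 := by
        intro k hk
        have := hn0 k hk
        rw [Real.dist_eq, sub_zero] at this
        exact (le_abs_self _).trans this.le
      have : ‖z m - z n‖ ≤ ε / 2 := by
        apply hnZ _ _ (by positivity)
        intro g
        have h1 := key m g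
        have h2 := key n g
        have h3 := mul_le_mul_of_nonneg_right (hb m hm) (norm_nonneg g)
        have h4 := mul_le_mul_of_nonneg_right (hb n hn) (norm_nonneg g)
        have h5 : g (z m - z n) = (g (z m) - Φ g (p i)) - (g (z n) - Φ g (p i)) := by
          rw [map_sub]; ring
        rw [h5]
        calc |(g (z m) - Φ g (p i)) - (g (z n) - Φ g (p i))|
            ≤ |g (z m) - Φ g (p i)| + |g (z n) - Φ g (p i)| := abs_sub _ _
          _ ≤ ε / 2 * ‖g‖ := by linarith
      linarith
    obtain ⟨w, hw⟩ := cauchySeq_tendsto_of_complete hcau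
    refine ⟨w, fun g => ?_⟩
    have h1 : Tendsto (fun n => g (z n)) atTop (𝓝 (g w)) := (g.continuous.tendsto _).comp hw
    have h2 : Tendsto (fun n => g (z n) - Φ g (p i)) atTop (𝓝 0) := by
      apply squeeze_zero_norm (a := fun n : ℕ => (1 / ((n : ℝ) + 1)) / r * ‖g‖)
      · intro n
        exact key n g
      · have := hlim0.mul_const ‖g‖
        rwa [zero_mul] at this
    have h3 : Tendsto (fun n => g (z n)) atTop (𝓝 (Φ g (p i))) := by
      have := h2.add_const (Φ g (p i))
      simpa using this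
    exact tendsto_nhds_unique h1 h3
  have hDtop : ∀ x : X, x ∈ D := by
    intro x
    have h1 : (Submodule.span ℝ (Set.range p)).topologicalClosure ≤ D := by
      apply Submodule.topologicalClosure_minimal _ _ hDclosed
      rw [Submodule.span_le]
      rintro _ ⟨i, rfl⟩
      exact hpD i
    rw [hdense] at h1
    exact h1 trivial
  choose S hS using hDtop
  have hSu : ∀ (x : X) (z : Z), (∀ g : Z →L[ℝ] ℝ, g z = Φ g x) → z = S x := by
    intro x z hz
    rw [← sub_eq_zero]
    apply hsep
    intro g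
    rw [map_sub, hz g, hS x g, sub_self]
  let Slin : X →ₗ[ℝ] Z :=
    { toFun := S
      map_add' := fun a b => (hSu _ _ (fun g => by
        rw [map_add, hS a g, hS b g, map_add])).symm
      map_smul' := fun c a => (hSu _ _ (fun g => by
        simp only [RingHom.id_apply]
        rw [map_smul, hS a g, map_smul])).symm }
  let Sli : X →ₗᵢ[ℝ] Z := { Slin with norm_map' := fun x => hnorm_eq x (S x) (hS x) }
  have hsurj : Function.Surjective Sli := by
    have hclosed : IsClosed (LinearMap.range Sli.toLinearMap : Set Z) := by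
      have : (LinearMap.range Sli.toLinearMap : Set Z) = Set.range Sli := by
        ext z; simp
      rw [this]
      exact Sli.isometry.isClosedEmbedding.isClosed_range
    intro z
    by_contra hz
    have hz' : z ∉ (LinearMap.range Sli.toLinearMap : Set Z) := by
      rintro ⟨x, hx⟩
      exact hz ⟨x, hx⟩
    obtain ⟨g, u, hg1, hg2⟩ := geometric_hahn_banach_point_closed
      (LinearMap.range Sli.toLinearMap).convex hclosed hz'

    have hg0 : ∀ x : X, g (S x) = 0 := by
      intro x
      by_contra hne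
      have h1 := hg2 (Sli (((u - 1) / g (S x)) • x)) ⟨_, rfl⟩
      rw [map_smul, map_smul, smul_eq_mul] at h1
      have h2 : g (Sli x) = g (S x) := rfl
      rw [h2, div_mul_cancel₀ _ hne] at h1
      linarith
    have hΦ : Φ g = 0 := by
      ext x
      rw [← hS x g, hg0 x]
      rfl
    have hg00 : g = 0 := by
      have := congrArg Φ.symm hΦ
      rwa [Φ.symm_apply_apply, map_zero] at this
    have h3 := hg2 0 (Submodule.zero_mem _)
    rw [map_zero] at h3
    rw [hg00] at hg1
    have : (0 : Z →L[ℝ] ℝ) z = 0 := rfl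
    linarith
  exact ⟨(LinearIsometryEquiv.ofSurjective Sli hsurj).symm⟩

end Unique

end Pool.Agent.H130R7
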