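import Mathlib

set_option autoImplicit false

namespace Pool.Agent.H130R7

open Set Filter Topology

/-- Three copies of the one point compactification of `ℕ`. -/
abbrev K3 : Type := OnePoint ℕ × Fin 3

lemma continuous_K3 (g : K3 → ℝ)
    (h : ∀ i, Tendsto (fun m : ℕ => g ((m : OnePoint ℕ), i)) atTop (𝓝 (g (OnePoint.infty, i)))) :
    Continuous g := by
  rw [continuous_prod_of_discrete_right]
  intro i
  rw [OnePoint.continuous_iff_from_nat]
  exact h i

lemma tendsto_K3 (f : C(K3, ℝ)) (i : Fin 3) :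
    Tendsto (fun m : ℕ => f ((m : OnePoint ℕ), i)) atTop (𝓝 (f (OnePoint.infty, i))) := by
  have h1 : Continuous fun x : OnePoint ℕ => f (x, i) := f.continuous.comp (by fun_prop)
  exact (OnePoint.continuous_iff_from_nat _).1 h1

/-- values at infinity sum to zero -/
noncomputable def Lam : C(K3, ℝ) →L[ℝ] ℝ :=
  ContinuousMap.evalCLM ℝ (OnePoint.infty, 0) + ContinuousMap.evalCLM ℝ (OnePoint.infty, 1) +
    ContinuousMap.evalCLM ℝ (OnePoint.infty, 2)

/-- The kernel of `Lam`. -/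
noncomputable def S0 : Submodule ℝ C(K3, ℝ) := LinearMap.ker (Lam : C(K3, ℝ) →ₗ[ℝ] ℝ)

lemma mem_S0 (f : C(K3, ℝ)) : f ∈ S0 ↔
    f (OnePoint.infty, 0) + f (OnePoint.infty, 1) + f (OnePoint.infty, 2) = 0 := by
  unfold S0
  rw [LinearMap.mem_ker]
  rfl

/-- The space `X_0`. -/
def E0 : Type := S0

noncomputable instance : NormedAddCommGroup E0 := inferInstanceAs (NormedAddCommGroup S0)

noncomputable instance : NormedSpace ℝ E0 := inferInstanceAs (NormedSpace ℝ S0)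

lemma isClosed_S0 : IsClosed (S0 : Set C(K3, ℝ)) := by
  have h : (S0 : Set C(K3, ℝ)) = Lam ⁻¹' {0} := by
    ext f
    change f ∈ S0 ↔ Lam f = 0
    unfold S0
    rw [LinearMap.mem_ker]
    rfl
  rw [h]
  exact isClosed_singleton.preimage Lam.continuous

instance : CompleteSpace E0 := isClosed_S0.completeSpace_coe

/-- value of an element of `E0` at a point -/
def vl (f : E0) (k : K3) : ℝ := (Subtype.val f : C(K3, ℝ)) k

lemma vl_add (f g : E0) (k : K3) : vl (f + g) k = vl f k + vl g k := rfl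

lemma vl_smul (c : ℝ) (f : E0) (k : K3) : vl (c • f) k = c * vl f k := rfl

lemma vl_sub (f g : E0) (k : K3) : vl (f - g) k = vl f k - vl g k := rfl

lemma vl_zero (k : K3) : vl 0 k = 0 := rfl

lemma abs_le_norm (f : E0) (k : K3) : |vl f k| ≤ ‖f‖ :=
  ContinuousMap.norm_coe_le_norm (Subtype.val f : C(K3, ℝ)) k

lemma norm_le_iff (f : E0) (C : ℝ) : ‖f‖ ≤ C ↔ ∀ k, |vl f k| ≤ C :=
  ContinuousMap.norm_le_of_nonempty (Subtype.val f : C(K3, ℝ))

/-- evaluation -/
noncomputable def ev (k : K3) : E0 →L[ℝ] ℝ :=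
  LinearMap.mkContinuous { toFun := fun f => vl f k
                           map_add' := fun f g => vl_add f g k
                           map_smul' := fun c f => vl_smul c f k } 1
    (fun f => by rw [one_mul]; exact abs_le_norm f k)

@[simp] lemma ev_apply (k : K3) (f : E0) : ev k f = vl f k := rfl

lemma norm_ev_le (k : K3) : ‖ev k‖ ≤ 1 := by
  apply ContinuousLinearMap.opNorm_le_bound _ zero_le_one
  intro f
  rw [one_mul]
  exact abs_le_norm f k

/-- isolated points -/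
def pt (t : ℕ × Fin 3) : K3 := ((t.1 : OnePoint ℕ), t.2)

lemma pt_inj {s t : ℕ × Fin 3} : pt s = pt t ↔ s = t := by
  constructor
  · intro h
    have h1 := congrArg Prod.fst h
    have h2 := congrArg Prod.snd h
    exact Prod.ext (OnePoint.coe_injective h1) h2
  · rintro rfl; rfl

lemma infty_ne_pt (i : Fin 3) (t : ℕ × Fin 3) : ((OnePoint.infty : OnePoint ℕ), i) ≠ pt t := by
  intro h
  have h1 := congrArg Prod.fst h
  exact OnePoint.infty_ne_coe _ h1

open Classical in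
/-- unit vectors -/
noncomputable def eC (t : ℕ × Fin 3) : C(K3, ℝ) where
  toFun k := if k = pt t then 1 else 0
  continuous_toFun := by
    apply continuous_K3
    intro i
    have h1 : (if ((OnePoint.infty : OnePoint ℕ), i) = pt t then (1 : ℝ) else 0) = 0 :=
      if_neg (infty_ne_pt i t)
    rw [h1]
    apply tendsto_const_nhds.congr'
    filter_upwards [eventually_gt_atTop t.1] with m hm
    symm
    apply if_neg
    intro h
    have h2 : (m, i) = t := pt_inj.1 h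
    rw [← h2] at hm
    exact lt_irrefl _ hm

lemma eC_self (t : ℕ × Fin 3) : eC t (pt t) = 1 := if_pos rfl

lemma eC_ne (t : ℕ × Fin 3) {k : K3} (h : k ≠ pt t) : eC t k = 0 := if_neg h

/-- unit vectors in `E0` -/
noncomputable def e0 (t : ℕ × Fin 3) : E0 := ⟨eC t, by
  rw [mem_S0, eC_ne t (infty_ne_pt _ t), eC_ne t (infty_ne_pt _ t), eC_ne t (infty_ne_pt _ t)]
  norm_num⟩

lemma vl_e0_self (t : ℕ × Fin 3) : vl (e0 t) (pt t) = 1 := eC_self t

lemma vl_e0_ne (t : ℕ × Fin 3) {k : K3} (h : k ≠ pt t) : vl (e0 t) k = 0 := eC_ne t h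

open Classical in
/-- tails of constant vectors -/
noncomputable def tailC (z : Fin 3 → ℝ) (n : ℕ) : C(K3, ℝ) where
  toFun k := if ∃ m : ℕ, m < n ∧ k.1 = (m : OnePoint ℕ) then 0 else z k.2
  continuous_toFun := by
    apply continuous_K3
    intro i
    have h1 : (if ∃ m : ℕ, m < n ∧ (OnePoint.infty : OnePoint ℕ) = (m : OnePoint ℕ) then (0 : ℝ)
        else z i) = z i := by
      apply if_neg
      rintro ⟨m, _, hm⟩
      exact OnePoint.infty_ne_coe _ hm
    rw [h1]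
    apply tendsto_const_nhds.congr'
    filter_upwards [eventually_ge_atTop n] with m hm
    symm
    apply if_neg
    rintro ⟨l, hl, hlm⟩
    have : m = l := OnePoint.coe_injective hlm
    omega

lemma tailC_infty (z : Fin 3 → ℝ) (n : ℕ) (i : Fin 3) : tailC z n (OnePoint.infty, i) = z i := by
  apply if_neg
  rintro ⟨m, _, hm⟩
  exact OnePoint.infty_ne_coe _ hm

lemma tailC_ge (z : Fin 3 → ℝ) (n : ℕ) (m : ℕ) (hm : n ≤ m) (i : Fin 3) :
    tailC z n ((m : OnePoint ℕ), i) = z i := by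
  apply if_neg
  rintro ⟨l, hl, hlm⟩
  have : m = l := OnePoint.coe_injective hlm
  omega

lemma tailC_lt (z : Fin 3 → ℝ) (n : ℕ) (m : ℕ) (hm : m < n) (i : Fin 3) :
    tailC z n ((m : OnePoint ℕ), i) = 0 := if_pos ⟨m, hm, rfl⟩

/-- tails in `E0` -/
noncomputable def tl (z : Fin 3 → ℝ) (hz : z 0 + z 1 + z 2 = 0) (n : ℕ) : E0 := ⟨tailC z n, by
  rw [mem_S0, tailC_infty, tailC_infty, tailC_infty]; exact hz⟩

lemma vl_tl_infty (z : Fin 3 → ℝ) (hz : z 0 + z 1 + z 2 = 0) (n : ℕ) (i : Fin 3) :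
    vl (tl z hz n) (OnePoint.infty, i) = z i := tailC_infty z n i

lemma vl_tl_ge (z : Fin 3 → ℝ) (hz : z 0 + z 1 + z 2 = 0) (n : ℕ) (t : ℕ × Fin 3) (ht : n ≤ t.1) :
    vl (tl z hz n) (pt t) = z t.2 := tailC_ge z n t.1 ht t.2

lemma vl_tl_lt (z : Fin 3 → ℝ) (hz : z 0 + z 1 + z 2 = 0) (n : ℕ) (t : ℕ × Fin 3) (ht : t.1 < n) :
    vl (tl z hz n) (pt t) = 0 := tailC_lt z n t.1 ht t.2

lemma tendsto_E0 (f : E0) (i : Fin 3) :
    Tendsto (fun m : ℕ => vl f (pt (m, i))) atTop (𝓝 (vl f (OnePoint.infty, i))) :=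
  tendsto_K3 (Subtype.val f) i

lemma sum_infty (f : E0) : vl f (OnePoint.infty, 0) + vl f (OnePoint.infty, 1) +
    vl f (OnePoint.infty, 2) = 0 := (mem_S0 _).1 (Subtype.property f)

lemma K3_cases (k : K3) : (∃ t, k = pt t) ∨ ∃ i, k = (OnePoint.infty, i) := by
  obtain ⟨a, i⟩ := k
  induction a using OnePoint.rec with
  | infty => exact Or.inr ⟨i, rfl⟩
  | coe m => exact Or.inl ⟨(m, i), rfl⟩

lemma tl_norm_le (z : Fin 3 → ℝ) (hz : z 0 + z 1 + z 2 = 0) (n : ℕ) (h : ∀ i, |z i| ≤ 1) :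
    ‖tl z hz n‖ ≤ 1 := by
  rw [norm_le_iff]
  intro k
  rcases K3_cases k with ⟨t, rfl⟩ | ⟨i, rfl⟩
  · by_cases hm : t.1 < n
    · rw [vl_tl_lt z hz n t hm]; simp
    · rw [vl_tl_ge z hz n t (not_lt.1 hm)]; exact h _
  · rw [vl_tl_infty]; exact h i

/-- sup over isolated points -/
lemma exists_pt_gt (f : E0) (r : ℝ) (hr : r < ‖f‖) : ∃ t, r < |vl f (pt t)| := by
  by_contra hcon
  push Not at hcon
  have : ‖f‖ ≤ r := by
    rw [norm_le_iff]
    intro k
    rcases K3_cases k with ⟨t, rfl⟩ | ⟨i, rfl⟩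
    · exact hcon t
    · have h1 := (tendsto_E0 f i).abs
      exact le_of_tendsto' h1 (fun m => hcon (m, i))
  linarith

/-- `E0` has numerical index one in a strong sense. -/
theorem E0_index (S : E0 →L[ℝ] E0) (ε : ℝ) (hε : 0 < ε) :
    ∃ (x : E0) (f : E0 →L[ℝ] ℝ), ‖x‖ ≤ 1 ∧ ‖f‖ ≤ 1 ∧ f x = 1 ∧ ‖S‖ - ε ≤ |f (S x)| := by
  obtain ⟨y, hy1, hy2⟩ := S.exists_lt_apply_of_lt_opNorm (r := ‖S‖ - ε) (by linarith)
  obtain ⟨t, ht⟩ := exists_pt_gt (S y) _ hy2
  set a : ℝ := vl y (pt t) with ha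
  have ha1 : |a| ≤ 1 := (abs_le_norm y _).trans hy1.le
  obtain ⟨ha2, ha3⟩ := abs_le.1 ha1
  set yp : E0 := y + (1 - a) • e0 t with hyp
  set ym : E0 := y + (-1 - a) • e0 t with hym
  have hval : ∀ (c : ℝ) (k : K3), vl (y + c • e0 t) k = vl y k + c * vl (e0 t) k :=
    fun c k => rfl
  have hn : ∀ c : ℝ, |c| = 1 → ‖y + (c - a) • e0 t‖ ≤ 1 := by
    intro c hc
    rw [norm_le_iff]
    intro k
    rw [hval]
    by_cases hk : k = pt t
    · rw [hk, vl_e0_self, mul_one, ← ha]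
      have : a + (c - a) = c := by ring
      rw [this, hc]
    · rw [vl_e0_ne t hk, mul_zero, add_zero]
      exact (abs_le_norm y _).trans hy1.le
  have hcomb : S y = ((1 + a) / 2) • S yp + ((1 - a) / 2) • S ym := by
    rw [← map_smul, ← map_smul, ← map_add]
    congr 1
    rw [hyp, hym]
    module
  have hcomb2 : vl (S y) (pt t) = ((1 + a) / 2) * vl (S yp) (pt t)
      + ((1 - a) / 2) * vl (S ym) (pt t) := by
    rw [hcomb]; rfl
  have hor : ‖S‖ - ε ≤ |vl (S yp) (pt t)| ∨ ‖S‖ - ε ≤ |vl (S ym) (pt t)| := by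
    by_contra hcon
    push Not at hcon
    obtain ⟨h1, h2⟩ := hcon
    have h3 : |vl (S y) (pt t)| ≤ ((1 + a) / 2) * |vl (S yp) (pt t)|
      + ((1 - a) / 2) * |vl (S ym) (pt t)| := by
      rw [hcomb2]
      refine (abs_add_le _ _).trans ?_
      rw [abs_mul, abs_mul, abs_of_nonneg (by linarith : 0 ≤ (1 + a) / 2),
        abs_of_nonneg (by linarith : 0 ≤ (1 - a) / 2)]
    have h4 := mul_le_mul_of_nonneg_left h1.le (by linarith : 0 ≤ (1 + a) / 2)
    have h5 := mul_le_mul_of_nonneg_left h2.le (by linarith : 0 ≤ (1 - a) / 2)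
    linarith
  rcases hor with h | h
  · refine ⟨yp, ev (pt t), hn 1 (by simp), norm_ev_le _, ?_, h⟩
    rw [ev_apply, hyp, hval, vl_e0_self, ← ha]; ring
  · refine ⟨ym, -ev (pt t), hn (-1) (by simp), by rw [norm_neg]; exact norm_ev_le _, ?_, ?_⟩
    · change -(vl ym (pt t)) = 1
      rw [hym, hval, vl_e0_self, ← ha]; ring
    · change ‖S‖ - ε ≤ |-(vl (S ym) (pt t))|
      rw [abs_neg]; exact h

end Pool.Agent.H130R7
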