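import Mathlib
import Pool.Agent.H130R7.NI3

set_option autoImplicit false

namespace Pool.Agent.H130R7

open Set Filter Topology

section Limit

variable {E : Type*} [NormedAddCommGroup E] [NormedSpace ℝ E]

/-- ultrafilter limit of a bounded sequence in the bidual -/
theorem exists_limit (y : ℕ → E) (hy : ∀ n, ‖y n‖ ≤ 1) :
    ∃ q : (E →L[ℝ] ℝ) →L[ℝ] ℝ, ∀ f : E →L[ℝ] ℝ,
      Tendsto (fun n => f (y n)) (hyperfilter ℕ : Filter ℕ) (𝓝 (q f)) := by
  have hex : ∀ f : E →L[ℝ] ℝ, ∃ l : ℝ, l ∈ Icc (-‖f‖) ‖f‖ ∧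
      Tendsto (fun n => f (y n)) (hyperfilter ℕ : Filter ℕ) (𝓝 l) := by
    intro f
    have hmem : ∀ n, f (y n) ∈ Icc (-‖f‖) ‖f‖ := by
      intro n
      have h1 := f.le_opNorm (y n)
      rw [Real.norm_eq_abs] at h1
      have h2 : ‖f‖ * ‖y n‖ ≤ ‖f‖ := by
        calc ‖f‖ * ‖y n‖ ≤ ‖f‖ * 1 := mul_le_mul_of_nonneg_left (hy n) (norm_nonneg _)
          _ = ‖f‖ := mul_one _
      exact abs_le.1 (h1.trans h2)
    obtain ⟨l, hl1, hl2⟩ := (isCompact_Icc (a := -‖f‖) (b := ‖f‖)).ultrafilter_le_nhds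
      ((hyperfilter ℕ).map fun n => f (y n))
      (tendsto_principal.2 (Eventually.of_forall hmem))
    exact ⟨l, hl1, hl2⟩
  choose L hL1 hL2 using hex
  refine ⟨LinearMap.mkContinuous
    { toFun := L
      map_add' := fun f g => tendsto_nhds_unique (hL2 (f + g)) ((hL2 f).add (hL2 g))
      map_smul' := fun c f => tendsto_nhds_unique (hL2 (c • f)) ((hL2 f).const_mul c) } 1
    (fun f => ?_), fun f => hL2 f⟩
  rw [one_mul, Real.norm_eq_abs, abs_le]
  exact hL1 f

end Limit

/-- `(1,-1,0)` -/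
def zu : Fin 3 → ℝ := ![1, -1, 0]

/-- `(0,1,-1)` -/
def zv : Fin 3 → ℝ := ![0, 1, -1]

lemma zu_sum : zu 0 + zu 1 + zu 2 = 0 := by simp [zu]

lemma zv_sum : zv 0 + zv 1 + zv 2 = 0 := by simp [zv]

lemma zu_le (i : Fin 3) : |zu i| ≤ 1 := by fin_cases i <;> simp [zu]

lemma zv_le (i : Fin 3) : |zv i| ≤ 1 := by fin_cases i <;> simp [zv]

/-- first coefficient functional -/
noncomputable def alph : E0 →L[ℝ] ℝ :=
  (1 / 2 : ℝ) • (ev (OnePoint.infty, 1) - ev (OnePoint.infty, 2))

/-- second coefficient functional -/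
noncomputable def bet : E0 →L[ℝ] ℝ :=
  (1 / 2 : ℝ) • (ev (OnePoint.infty, 1) - ev (OnePoint.infty, 0))

lemma alph_apply (f : E0) :
    alph f = (1 / 2) * (vl f (OnePoint.infty, 1) - vl f (OnePoint.infty, 2)) := rfl

lemma bet_apply (f : E0) :
    bet f = (1 / 2) * (vl f (OnePoint.infty, 1) - vl f (OnePoint.infty, 0)) := rfl

lemma key_bound (f : E0) (hf : ‖f‖ ≤ 1) (σ : ℝ) (hσ : |σ| = 1) (i : Fin 3) :
    |vl f (OnePoint.infty, i) + σ * (alph f * zu i + bet f * zv i)| ≤ 3 / 2 := by
  have h0 := abs_le.1 ((abs_le_norm f (OnePoint.infty, 0)).trans hf)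
  have h1 := abs_le.1 ((abs_le_norm f (OnePoint.infty, 1)).trans hf)
  have h2 := abs_le.1 ((abs_le_norm f (OnePoint.infty, 2)).trans hf)
  have hs := sum_infty f
  rw [alph_apply, bet_apply]
  set a := vl f (OnePoint.infty, 0)
  set b := vl f (OnePoint.infty, 1)
  set c := vl f (OnePoint.infty, 2)
  have hσ' : σ = 1 ∨ σ = -1 := by
    rcases le_total 0 σ with h | h
    · left; rwa [abs_of_nonneg h] at hσ
    · right; rw [abs_of_nonpos h] at hσ; linarith
  rw [abs_le]
  fin_cases i <;> rcases hσ' with rfl | rfl <;> simp [zu, zv] <;> constructor <;> linarith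

/-- The operator on the dual with small numerical radius. -/
theorem exists_operator : ∃ T : (E0 →L[ℝ] ℝ) →L[ℝ] (E0 →L[ℝ] ℝ), 1 ≤ ‖T‖ ∧
    ∀ σ : ℝ, |σ| = 1 → ∀ g : E0 →L[ℝ] ℝ, ‖g + σ • T g‖ ≤ (3 / 2) * ‖g‖ := by
  obtain ⟨qu, hqu⟩ := exists_limit (fun n => tl zu zu_sum n) (fun n => tl_norm_le _ _ n zu_le)
  obtain ⟨qv, hqv⟩ := exists_limit (fun n => tl zv zv_sum n) (fun n => tl_norm_le _ _ n zv_le)
  set T : (E0 →L[ℝ] ℝ) →L[ℝ] (E0 →L[ℝ] ℝ) := qu.smulRight alph + qv.smulRight bet with hT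
  have hTa : ∀ (g : E0 →L[ℝ] ℝ) (f : E0), (T g) f = qu g * alph f + qv g * bet f :=
    fun g f => rfl
  refine ⟨T, ?_, ?_⟩
  · have hu1 : qu (ev (OnePoint.infty, 0)) = 1 := by
      refine tendsto_nhds_unique (hqu (ev (OnePoint.infty, 0))) ?_
      have : (fun n => ev (OnePoint.infty, 0) (tl zu zu_sum n)) = fun _ => (1 : ℝ) := by
        funext n
        rw [ev_apply, vl_tl_infty]; simp [zu]
      rw [this]; exact tendsto_const_nhds
    have hv1 : qv (ev (OnePoint.infty, 0)) = 0 := by
      refine tendsto_nhds_unique (hqv (ev (OnePoint.infty, 0))) ?_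
      have : (fun n => ev (OnePoint.infty, 0) (tl zv zv_sum n)) = fun _ => (0 : ℝ) := by
        funext n
        rw [ev_apply, vl_tl_infty]; simp [zv]
      rw [this]; exact tendsto_const_nhds
    have h1 : (T (ev (OnePoint.infty, 0))) (tl zv zv_sum 0) = 1 := by
      rw [hTa, hu1, hv1, alph_apply, vl_tl_infty, vl_tl_infty]
      simp [zv]; norm_num
    have h2 := (T (ev (OnePoint.infty, 0))).le_opNorm (tl zv zv_sum 0)
    rw [h1, norm_one] at h2
    have h3 : ‖T (ev (OnePoint.infty, 0))‖ ≤ ‖T‖ := by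
      calc ‖T (ev (OnePoint.infty, 0))‖ ≤ ‖T‖ * ‖ev (OnePoint.infty, 0)‖ := T.le_opNorm _
        _ ≤ ‖T‖ * 1 := mul_le_mul_of_nonneg_left (norm_ev_le _) (ContinuousLinearMap.opNorm_nonneg T)
        _ = ‖T‖ := mul_one _
    calc (1 : ℝ) ≤ ‖T (ev (OnePoint.infty, 0))‖ * ‖tl zv zv_sum 0‖ := h2
      _ ≤ ‖T‖ * 1 := mul_le_mul h3 (tl_norm_le _ _ 0 zv_le) (norm_nonneg _)
          (ContinuousLinearMap.opNorm_nonneg T)
      _ = ‖T‖ := mul_one _
  · intro σ hσ g
    -- bound on the unit ball
    have hball : ∀ f : E0, ‖f‖ ≤ 1 → |(g + σ • T g) f| ≤ (3 / 2) * ‖g‖ := by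
      intro f hf
      have hlim : Tendsto (fun n => g (f + (σ * alph f) • tl zu zu_sum n +
          (σ * bet f) • tl zv zv_sum n)) (hyperfilter ℕ : Filter ℕ) (𝓝 ((g + σ • T g) f)) := by
        have h1 : (g + σ • T g) f = g f + (σ * alph f) * qu g + (σ * bet f) * qv g := by
          change g f + σ * ((T g) f) = _
          rw [hTa]; ring
        rw [h1]
        have h2 : (fun n => g (f + (σ * alph f) • tl zu zu_sum n +
          (σ * bet f) • tl zv zv_sum n)) = fun n => g f + (σ * alph f) * g (tl zu zu_sum n) +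
            (σ * bet f) * g (tl zv zv_sum n) := by
          funext n
          rw [map_add, map_add, map_smul, map_smul, smul_eq_mul, smul_eq_mul]
        rw [h2]
        exact (tendsto_const_nhds.add ((hqu g).const_mul _)).add ((hqv g).const_mul _)
      have hε : ∀ ε : ℝ, 0 < ε → |(g + σ • T g) f| ≤ (3 / 2 + ε) * ‖g‖ := by
        intro ε hε
        have hev : ∀ᶠ n in (atTop : Filter ℕ), ‖f + (σ * alph f) • tl zu zu_sum n +
          (σ * bet f) • tl zv zv_sum n‖ ≤ 3 / 2 + ε := by
          have hclose : ∀ i : Fin 3, ∀ᶠ m in (atTop : Filter ℕ),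
              |vl f (pt (m, i)) - vl f (OnePoint.infty, i)| < ε := by
            intro i
            have h1 := (Metric.tendsto_nhds.1 (tendsto_E0 f i)) ε hε
            filter_upwards [h1] with m hm
            rwa [Real.dist_eq] at hm
          have hall : ∀ᶠ m in (atTop : Filter ℕ), ∀ i : Fin 3,
              |vl f (pt (m, i)) - vl f (OnePoint.infty, i)| < ε := by
            rw [Filter.eventually_all]; exact hclose
          obtain ⟨n0, hn0⟩ := Filter.eventually_atTop.1 hall
          filter_upwards [eventually_ge_atTop n0] with n hn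
          rw [norm_le_iff]
          intro k
          have hval : vl (f + (σ * alph f) • tl zu zu_sum n + (σ * bet f) • tl zv zv_sum n) k
              = vl f k + (σ * alph f) * vl (tl zu zu_sum n) k +
                (σ * bet f) * vl (tl zv zv_sum n) k := rfl
          rw [hval]
          rcases K3_cases k with ⟨t, rfl⟩ | ⟨i, rfl⟩
          · by_cases hm : t.1 < n
            · rw [vl_tl_lt _ _ n t hm, vl_tl_lt _ _ n t hm, mul_zero, mul_zero, add_zero, add_zero]
              exact ((abs_le_norm f _).trans hf).trans (by linarith)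
            · push Not at hm
              rw [vl_tl_ge _ _ n t hm, vl_tl_ge _ _ n t hm]
              have h1 := hn0 t.1 (hn.trans hm) t.2
              have h2 := key_bound f hf σ hσ t.2
              have h3 : vl f (pt t) + σ * alph f * zu t.2 + σ * bet f * zv t.2
                  = (vl f (pt t) - vl f (OnePoint.infty, t.2)) +
                    (vl f (OnePoint.infty, t.2) + σ * (alph f * zu t.2 + bet f * zv t.2)) := by
                ring
              rw [h3]
              refine (abs_add_le _ _).trans ?_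
              have h4 : |vl f (pt t) - vl f (OnePoint.infty, t.2)| < ε := h1
              linarith
          · rw [vl_tl_infty, vl_tl_infty]
            have h2 := key_bound f hf σ hσ i
            have h3 : vl f (OnePoint.infty, i) + σ * alph f * zu i + σ * bet f * zv i
                = vl f (OnePoint.infty, i) + σ * (alph f * zu i + bet f * zv i) := by ring
            rw [h3]
            linarith
        have hev2 : ∀ᶠ n in (hyperfilter ℕ : Filter ℕ), |g (f + (σ * alph f) • tl zu zu_sum n +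
          (σ * bet f) • tl zv zv_sum n)| ≤ (3 / 2 + ε) * ‖g‖ := by
          have hle : (hyperfilter ℕ : Filter ℕ) ≤ atTop := by
            rw [← Nat.cofinite_eq_atTop]; exact hyperfilter_le_cofinite
          filter_upwards [hle hev] with n hn
          have h1 := g.le_opNorm (f + (σ * alph f) • tl zu zu_sum n +
            (σ * bet f) • tl zv zv_sum n)
          rw [Real.norm_eq_abs] at h1
          calc _ ≤ ‖g‖ * ‖f + (σ * alph f) • tl zu zu_sum n + (σ * bet f) • tl zv zv_sum n‖ := h1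
            _ ≤ ‖g‖ * (3 / 2 + ε) := mul_le_mul_of_nonneg_left hn (norm_nonneg _)
            _ = _ := mul_comm _ _
        exact le_of_tendsto hlim.abs hev2
      have hlim2 : Tendsto (fun ε : ℝ => (3 / 2 + ε) * ‖g‖) (𝓝[>] 0) (𝓝 ((3 / 2) * ‖g‖)) := by
        have h1 : Tendsto (fun ε : ℝ => (3 / 2 + ε) * ‖g‖) (𝓝 0) (𝓝 ((3 / 2 + 0) * ‖g‖)) :=
          (tendsto_const_nhds.add tendsto_id).mul_const _
        rw [add_zero] at h1
        exact h1.mono_left nhdsWithin_le_nhds
      refine ge_of_tendsto hlim2 ?_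
      filter_upwards [self_mem_nhdsWithin] with ε h
      exact hε ε h
    apply ContinuousLinearMap.opNorm_le_of_unit_norm
    · positivity
    · intro f hf
      rw [Real.norm_eq_abs]
      exact hball f hf.le

end Pool.Agent.H130R7
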