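import Mathlib
import Pool.Agent.H130R7.NI1
import Pool.Agent.H130R7.NI2
import Pool.Agent.H130R7.NI3
import Pool.Agent.H130R7.NI4

set_option autoImplicit false

namespace Pool.Agent.H130R7

open Set Filter Topology

/-- index set -/
abbrev Ix : Type := (ℕ × Fin 3) ⊕ Bool

/-- the added points -/
noncomputable def pE : Ix → E0
  | Sum.inl t => (1001 / 1000 : ℝ) • e0 t
  | Sum.inr false => (2001 / 2000 : ℝ) • tl zu zu_sum 0
  | Sum.inr true => (2001 / 2000 : ℝ) • tl zv zv_sum 0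

/-- the exposing functionals -/
noncomputable def FE : Ix → (E0 →L[ℝ] ℝ)
  | Sum.inl t => (1000 / 1001 : ℝ) • ev (pt t)
  | Sum.inr false => (1000 / 2001 : ℝ) • (ev (OnePoint.infty, 0) - ev (OnePoint.infty, 1))
  | Sum.inr true => (1000 / 2001 : ℝ) • (ev (OnePoint.infty, 1) - ev (OnePoint.infty, 2))

lemma FE_inl (t : ℕ × Fin 3) (f : E0) : FE (Sum.inl t) f = (1000 / 1001 : ℝ) * vl f (pt t) := rfl

lemma FE_f (f : E0) : FE (Sum.inr false) f =
    (1000 / 2001 : ℝ) * (vl f (OnePoint.infty, 0) - vl f (OnePoint.infty, 1)) := rfl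

lemma FE_t (f : E0) : FE (Sum.inr true) f =
    (1000 / 2001 : ℝ) * (vl f (OnePoint.infty, 1) - vl f (OnePoint.infty, 2)) := rfl

lemma e0_norm_le (t : ℕ × Fin 3) : ‖e0 t‖ ≤ 1 := by
  rw [norm_le_iff]
  intro k
  by_cases hk : k = pt t
  · rw [hk, vl_e0_self]; simp
  · rw [vl_e0_ne t hk]; simp

lemma pE_norm_le (i : Ix) : ‖pE i‖ ≤ 1001 / 1000 := by
  rcases i with t | b
  · change ‖(1001 / 1000 : ℝ) • e0 t‖ ≤ _
    rw [norm_smul, Real.norm_of_nonneg (by norm_num)]
    have := e0_norm_le t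
    linarith
  · cases b
    · change ‖(2001 / 2000 : ℝ) • tl zu zu_sum 0‖ ≤ _
      rw [norm_smul, Real.norm_of_nonneg (by norm_num)]
      have := tl_norm_le zu zu_sum 0 zu_le
      linarith
    · change ‖(2001 / 2000 : ℝ) • tl zv zv_sum 0‖ ≤ _
      rw [norm_smul, Real.norm_of_nonneg (by norm_num)]
      have := tl_norm_le zv zv_sum 0 zv_le
      linarith

lemma vl_u_pt (t : ℕ × Fin 3) : vl (tl zu zu_sum 0) (pt t) = zu t.2 :=
  vl_tl_ge zu zu_sum 0 t (Nat.zero_le _)

lemma vl_v_pt (t : ℕ × Fin 3) : vl (tl zv zv_sum 0) (pt t) = zv t.2 :=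
  vl_tl_ge zv zv_sum 0 t (Nat.zero_le _)

lemma vl_e0_infty (t : ℕ × Fin 3) (i : Fin 3) : vl (e0 t) (OnePoint.infty, i) = 0 :=
  vl_e0_ne t (infty_ne_pt i t)

lemma FE_pE_self (i : Ix) : FE i (pE i) = 1 := by
  rcases i with t | b
  · rw [FE_inl]
    change (1000 / 1001 : ℝ) * ((1001 / 1000) * vl (e0 t) (pt t)) = 1
    rw [vl_e0_self]; norm_num
  · cases b
    · rw [FE_f]
      change (1000 / 2001 : ℝ) * ((2001 / 2000) * vl (tl zu zu_sum 0) (OnePoint.infty, 0) -
        (2001 / 2000) * vl (tl zu zu_sum 0) (OnePoint.infty, 1)) = 1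
      rw [vl_tl_infty, vl_tl_infty]; simp [zu]; norm_num
    · rw [FE_t]
      change (1000 / 2001 : ℝ) * ((2001 / 2000) * vl (tl zv zv_sum 0) (OnePoint.infty, 1) -
        (2001 / 2000) * vl (tl zv zv_sum 0) (OnePoint.infty, 2)) = 1
      rw [vl_tl_infty, vl_tl_infty]; simp [zv]; norm_num

lemma FE_ball (i : Ix) (y : E0) (hy : ‖y‖ ≤ 1) : |FE i y| ≤ 2001 / 2002 := by
  rcases i with t | b
  · rw [FE_inl, abs_mul, abs_of_pos (by norm_num : (0 : ℝ) < 1000 / 1001)]
    have := (abs_le_norm y (pt t)).trans hy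
    linarith
  · have h0 := abs_le.1 ((abs_le_norm y (OnePoint.infty, 0)).trans hy)
    have h1 := abs_le.1 ((abs_le_norm y (OnePoint.infty, 1)).trans hy)
    have h2 := abs_le.1 ((abs_le_norm y (OnePoint.infty, 2)).trans hy)
    cases b
    · rw [FE_f, abs_le]
      constructor <;> linarith
    · rw [FE_t, abs_le]
      constructor <;> linarith

lemma FE_pE_ne (i k : Ix) (h : k ≠ i) : |FE i (pE k)| ≤ 2001 / 2002 := by
  rcases i with t | b
  · rw [FE_inl]
    rcases k with s | b'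
    · change |(1000 / 1001 : ℝ) * ((1001 / 1000) * vl (e0 s) (pt t))| ≤ _
      have hne : pt t ≠ pt s := by
        intro he
        exact h (by rw [pt_inj.1 he])
      rw [vl_e0_ne s hne]; norm_num
    · cases b'
      · change |(1000 / 1001 : ℝ) * ((2001 / 2000) * vl (tl zu zu_sum 0) (pt t))| ≤ _
        rw [vl_u_pt, ← mul_assoc, abs_mul]
        have := zu_le t.2
        norm_num
        linarith
      · change |(1000 / 1001 : ℝ) * ((2001 / 2000) * vl (tl zv zv_sum 0) (pt t))| ≤ _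
        rw [vl_v_pt, ← mul_assoc, abs_mul]
        have := zv_le t.2
        norm_num
        linarith
  · cases b
    · rw [FE_f]
      rcases k with s | b'
      · change |(1000 / 2001 : ℝ) * ((1001 / 1000) * vl (e0 s) (OnePoint.infty, 0) -
          (1001 / 1000) * vl (e0 s) (OnePoint.infty, 1))| ≤ _
        rw [vl_e0_infty, vl_e0_infty]; norm_num
      · cases b'
        · exact absurd rfl h
        · change |(1000 / 2001 : ℝ) * ((2001 / 2000) * vl (tl zv zv_sum 0) (OnePoint.infty, 0) -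
            (2001 / 2000) * vl (tl zv zv_sum 0) (OnePoint.infty, 1))| ≤ _
          rw [vl_tl_infty, vl_tl_infty]; simp [zv]; norm_num [abs_le]
    · rw [FE_t]
      rcases k with s | b'
      · change |(1000 / 2001 : ℝ) * ((1001 / 1000) * vl (e0 s) (OnePoint.infty, 1) -
          (1001 / 1000) * vl (e0 s) (OnePoint.infty, 2))| ≤ _
        rw [vl_e0_infty, vl_e0_infty]; norm_num
      · cases b'
        · change |(1000 / 2001 : ℝ) * ((2001 / 2000) * vl (tl zu zu_sum 0) (OnePoint.infty, 1) -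
            (2001 / 2000) * vl (tl zu zu_sum 0) (OnePoint.infty, 2))| ≤ _
          rw [vl_tl_infty, vl_tl_infty]; simp [zu]; norm_num [abs_le]
        · exact absurd rfl h

lemma dense_E0 (f : E0) (ε : ℝ) (hε : 0 < ε) :
    ∃ g ∈ Submodule.span ℝ (Set.range pE), ‖f - g‖ ≤ ε := by
  set a : ℝ := vl f (OnePoint.infty, 0) with ha
  set c : ℝ := vl f (OnePoint.infty, 2) with hc
  set f0 : E0 := f - a • tl zu zu_sum 0 + c • tl zv zv_sum 0 with hf0
  have hval : ∀ k, vl f0 k = vl f k - a * vl (tl zu zu_sum 0) k + c * vl (tl zv zv_sum 0) k :=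
    fun k => rfl
  have hinf : ∀ i, vl f0 (OnePoint.infty, i) = 0 := by
    intro i
    have hs := sum_infty f
    rw [hval, vl_tl_infty, vl_tl_infty]
    fin_cases i
    · simp [zu, zv, ← ha]
    · simp [zu, zv]
      rw [← ha, ← hc] at hs
      linarith
    · simp [zu, zv, ← hc]
  have hclose : ∀ᶠ m in (atTop : Filter ℕ), ∀ i : Fin 3, |vl f0 (pt (m, i))| < ε := by
    rw [Filter.eventually_all]
    intro i
    have h1 := (Metric.tendsto_nhds.1 (tendsto_E0 f0 i)) ε hε
    filter_upwards [h1] with m hm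
    rwa [Real.dist_eq, hinf, sub_zero] at hm
  obtain ⟨n, hn⟩ := Filter.eventually_atTop.1 hclose
  set g : E0 := ∑ t ∈ (Finset.range n ×ˢ (Finset.univ : Finset (Fin 3))),
    vl f0 (pt t) • e0 t with hg
  have hgval : ∀ k, vl g k = ∑ t ∈ (Finset.range n ×ˢ (Finset.univ : Finset (Fin 3))),
      vl f0 (pt t) * vl (e0 t) k := by
    intro k
    have h1 : vl g k = ev k g := rfl
    rw [h1, hg, map_sum]
    refine Finset.sum_congr rfl fun t _ => ?_
    rw [map_smul]; rfl
  have hspan : ∀ t, e0 t ∈ Submodule.span ℝ (Set.range pE) := by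
    intro t
    have h1 : e0 t = (1000 / 1001 : ℝ) • pE (Sum.inl t) := by
      change e0 t = (1000 / 1001 : ℝ) • ((1001 / 1000 : ℝ) • e0 t)
      rw [smul_smul]; norm_num
    rw [h1]
    exact Submodule.smul_mem _ _ (Submodule.subset_span ⟨_, rfl⟩)
  have hspanu : tl zu zu_sum 0 ∈ Submodule.span ℝ (Set.range pE) := by
    have h1 : tl zu zu_sum 0 = (2000 / 2001 : ℝ) • pE (Sum.inr false) := by
      change tl zu zu_sum 0 = (2000 / 2001 : ℝ) • ((2001 / 2000 : ℝ) • tl zu zu_sum 0)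
      rw [smul_smul]; norm_num
    rw [h1]
    exact Submodule.smul_mem _ _ (Submodule.subset_span ⟨_, rfl⟩)
  have hspanv : tl zv zv_sum 0 ∈ Submodule.span ℝ (Set.range pE) := by
    have h1 : tl zv zv_sum 0 = (2000 / 2001 : ℝ) • pE (Sum.inr true) := by
      change tl zv zv_sum 0 = (2000 / 2001 : ℝ) • ((2001 / 2000 : ℝ) • tl zv zv_sum 0)
      rw [smul_smul]; norm_num
    rw [h1]
    exact Submodule.smul_mem _ _ (Submodule.subset_span ⟨_, rfl⟩)
  refine ⟨g + a • tl zu zu_sum 0 - c • tl zv zv_sum 0, ?_, ?_⟩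
  · apply Submodule.sub_mem
    · apply Submodule.add_mem
      · exact Submodule.sum_mem _ fun t _ => Submodule.smul_mem _ _ (hspan t)
      · exact Submodule.smul_mem _ _ hspanu
    · exact Submodule.smul_mem _ _ hspanv
  · have h1 : f - (g + a • tl zu zu_sum 0 - c • tl zv zv_sum 0) = f0 - g := by
      rw [hf0]; abel
    rw [h1, norm_le_iff]
    intro k
    rw [vl_sub, hgval]
    rcases K3_cases k with ⟨t, rfl⟩ | ⟨i, rfl⟩
    · by_cases ht : t.1 < n
      · rw [Finset.sum_eq_single t]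
        · rw [vl_e0_self, mul_one, sub_self, abs_zero]; exact hε.le
        · intro s _ hst
          rw [vl_e0_ne s (fun he => hst (pt_inj.1 he).symm), mul_zero]
        · intro hnot
          exact absurd (by simp [ht]) hnot
      · rw [Finset.sum_eq_zero]
        · rw [sub_zero]
          exact (hn t.1 (not_lt.1 ht) t.2).le
        · intro s hs
          have hs1 : s.1 < n := by
            have := (Finset.mem_product.1 hs).1
            exact Finset.mem_range.1 this
          rw [vl_e0_ne s (fun he => ht (by rw [pt_inj.1 he]; exact hs1)), mul_zero]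
    · rw [hinf, Finset.sum_eq_zero]
      · simpa using hε.le
      · intro s _
        rw [vl_e0_infty, mul_zero]

/-- The final renormed space. -/
theorem exists_space : ∃ (X : Type) (_ : NormedAddCommGroup X) (_ : NormedSpace ℝ X)
    (_ : CompleteSpace X) (ι : X ≃L[ℝ] E0),
    (∀ x, ‖x‖ ≤ ‖ι x‖) ∧ (∀ x, ‖ι x‖ ≤ (1001 / 1000) * ‖x‖) ∧
    (∀ (Z : Type) [NormedAddCommGroup Z] [NormedSpace ℝ Z] [CompleteSpace Z],
        Nonempty ((Z →L[ℝ] ℝ) ≃ₗᵢ[ℝ] (X →L[ℝ] ℝ)) → Nonempty (Z ≃ₗᵢ[ℝ] X)) := by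
  obtain ⟨N, hN1, hN2, hN3, hN4⟩ := exists_gauge pE (1001 / 1000) (by norm_num) pE_norm_le
  obtain ⟨X, i1, i2, i3, ι, hι⟩ := exists_renorm N (1001 / 1000) hN1 hN2
  refine ⟨X, i1, i2, i3, ι, fun x => by rw [hι]; exact hN1 _, fun x => by rw [hι]; exact hN2 _, ?_⟩
  intro Z _ _ _ ⟨Φ⟩
  have hle : ∀ y : E0, ‖ι.symm y‖ ≤ ‖y‖ := by
    intro y
    rw [hι, ι.apply_symm_apply]; exact hN1 y
  refine unique_predual (fun i => ι.symm (pE i)) ?_ (fun i => (FE i).comp (ι : X →L[ℝ] E0))
    ?_ ?_ (1 / 4004) (by norm_num) ?_ Φ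
  · rw [eq_top_iff]
    intro x _
    rw [← SetLike.mem_coe, Submodule.topologicalClosure_coe, Metric.mem_closure_iff]
    intro ε hε
    obtain ⟨g, hg1, hg2⟩ := dense_E0 (ι x) (ε / 2) (by positivity)
    refine ⟨ι.symm g, ?_, ?_⟩
    · have h1 : Submodule.map (ι.symm : E0 →L[ℝ] X).toLinearMap (Submodule.span ℝ (Set.range pE))
          = Submodule.span ℝ (Set.range fun i => ι.symm (pE i)) := by
        rw [Submodule.map_span, ← Set.range_comp]
        rfl
      change ι.symm g ∈ Submodule.span ℝ (Set.range fun i => ι.symm (pE i))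
      rw [← h1]
      exact ⟨g, hg1, rfl⟩
    · rw [dist_eq_norm]
      have h1 : x - ι.symm g = ι.symm (ι x - g) := by
        rw [map_sub, ι.symm_apply_apply]
      rw [h1]
      exact ((hle _).trans hg2).trans_lt (by linarith)
  · intro i
    change ‖ι.symm (pE i)‖ ≤ 1
    rw [hι, ι.apply_symm_apply]
    exact hN3 i
  · intro i
    change FE i (ι (ι.symm (pE i))) = 1
    rw [ι.apply_symm_apply]
    exact FE_pE_self i
  · intro i h hh
    have hpi : |h (ι.symm (pE i))| ≤ 1 / 4004 := by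
      have h1 := h.le_opNorm (ι.symm (pE i))
      rw [Real.norm_eq_abs] at h1
      have h2 : ‖ι.symm (pE i)‖ ≤ 1 := by
        rw [hι, ι.apply_symm_apply]; exact hN3 i
      calc |h (ι.symm (pE i))| ≤ ‖h‖ * ‖ι.symm (pE i)‖ := h1
        _ ≤ (1 / 4004) * 1 := mul_le_mul hh h2 (norm_nonneg _) (by norm_num)
        _ = _ := mul_one _
    have hpk : ∀ y : E0, ‖ι.symm y‖ ≤ 1 → |h (ι.symm y)| ≤ 1 / 4004 := by
      intro y hy
      have h1 := h.le_opNorm (ι.symm y)
      rw [Real.norm_eq_abs] at h1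
      calc |h (ι.symm y)| ≤ ‖h‖ * ‖ι.symm y‖ := h1
        _ ≤ (1 / 4004) * 1 := mul_le_mul hh hy (norm_nonneg _) (by norm_num)
        _ = _ := mul_one _
    obtain ⟨hp1, hp2⟩ := abs_le.1 hpi
    set M : ℝ := 1 + h (ι.symm (pE i)) with hM
    have hM0 : 0 ≤ M := by linarith
    set q : E0 →L[ℝ] ℝ := FE i + h.comp (ι.symm : E0 →L[ℝ] X) with hq
    have hqa : ∀ y, q y = FE i y + h (ι.symm y) := fun y => rfl
    have hb1 : ∀ y : E0, ‖y‖ ≤ 1 → q y ≤ M := by
      intro y hy
      rw [hqa]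
      have h1 := (abs_le.1 (FE_ball i y hy)).2
      have h2 := (abs_le.1 (hpk y ((hle y).trans hy))).2
      linarith
    have hb2 : ∀ k, |q (pE k)| ≤ M := by
      intro k
      by_cases hk : k = i
      · rw [hk, hqa, FE_pE_self, ← hM, abs_of_nonneg hM0]
      · have h1 := FE_pE_ne i k hk
        have h2 : ‖ι.symm (pE k)‖ ≤ 1 := by
          rw [hι, ι.apply_symm_apply]; exact hN3 k
        have h3 := hpk (pE k) h2
        rw [hqa]
        calc |FE i (pE k) + h (ι.symm (pE k))| ≤ |FE i (pE k)| + |h (ι.symm (pE k))| :=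
              abs_add_le _ _
          _ ≤ M := by linarith
    have hle2 := hN4 q M hM0 hb1 hb2
    apply ContinuousLinearMap.opNorm_le_bound _ hM0
    intro x
    rw [Real.norm_eq_abs, abs_le, hι x]
    have hx1 := hle2 (ι x)
    have hx2 := hle2 (-ι x)
    rw [map_neg, map_neg_eq_map] at hx2
    have hqx : q (ι x) = ((FE i).comp (ι : X →L[ℝ] E0) + h) x := by
      rw [hqa, ι.symm_apply_apply]; rfl
    rw [hqx] at hx1 hx2
    constructor
    · linarith
    · exact hx1

end Pool.Agent.H130R7
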